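import Pool.Agent.Q260.DT.Stm
import Pool.Agent.H382R2.Rect

/-!
# Project DT (helper260), job IF: the inverse formula
-/

set_option autoImplicit false

namespace Pool.Agent.Q182.DT

open Complex Filter Topology Metric Set MeasureTheory
open Pool.Agent.Q260.DT
open SG (rectI rect_res)

theorem int_exp_abs {δ : ℝ} (hδ : 0 < δ) : Integrable fun t : ℝ => Real.exp (-δ * |t|) := by
  have h1 : IntegrableOn (fun t : ℝ => Real.exp (-δ * |t|)) (Ioi 0) := by
    refine (integrableOn_exp_mul_Ioi (a := -δ) (by linarith) 0).congr_fun ?_ measurableSet_Ioi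
    intro t ht
    have ht : 0 < t := ht
    simp only [abs_of_pos ht]
  have h2 : IntegrableOn (fun t : ℝ => Real.exp (-δ * |t|)) (Iic 0) := by
    refine (integrableOn_exp_mul_Iic (a := δ) hδ 0).congr_fun ?_ measurableSet_Iic
    intro t ht
    have ht : t ≤ 0 := ht
    simp only [abs_of_nonpos ht]
    congr 1; ring
  have := h2.union h1
  rwa [Iic_union_Ioi, integrableOn_univ] at this

theorem sin_norm_ge (p q : ℝ) : |Real.sinh q| ≤ ‖Complex.sin (p + q * I)‖ := by
  rw [Complex.sin_add_mul_I]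
  rw [← Real.sqrt_sq_eq_abs, Complex.norm_def]
  refine Real.sqrt_le_sqrt ?_
  have h1 : (Complex.sin p * Complex.cosh q + Complex.cos p * Complex.sinh q * I) =
      ((Real.sin p * Real.cosh q : ℝ) : ℂ) + ((Real.cos p * Real.sinh q : ℝ) : ℂ) * I := by
    push_cast
    ring
  rw [h1, Complex.normSq_add_mul_I]
  have h2 := Real.sin_sq_add_cos_sq p
  have h3 := Real.cosh_sq q
  have h4 : (Real.sin p * Real.cosh q) ^ 2 + (Real.cos p * Real.sinh q) ^ 2 =
      Real.sin p ^ 2 + Real.sinh q ^ 2 := by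
    rw [mul_pow, mul_pow, h3]
    linear_combination (Real.sinh q ^ 2) * h2
  rw [h4]
  nlinarith [sq_nonneg (Real.sin p)]

theorem cosh_norm_ge (p q : ℝ) : Real.cos q * Real.cosh p ≤ ‖Complex.cosh (p + q * I)‖ := by
  refine le_trans ?_ (Complex.re_le_norm _)
  rw [Complex.cosh_add, Complex.cosh_mul_I, Complex.sinh_mul_I]
  have h1 : Complex.cosh p * Complex.cos q + Complex.sinh p * (Complex.sin q * I) =
      ((Real.cosh p * Real.cos q : ℝ) : ℂ) + ((Real.sinh p * Real.sin q : ℝ) : ℂ) * I := by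
    push_cast
    ring
  rw [h1]
  simp only [Complex.add_re, Complex.ofReal_re, Complex.mul_re, Complex.I_re, Complex.ofReal_im, Complex.I_im]
  linarith

theorem cosh_abs_ge (x : ℝ) : Real.exp |x| / 2 ≤ Real.cosh x := by
  rw [← Real.cosh_abs, Real.cosh_eq]
  have := Real.exp_pos (-|x|)
  linarith

theorem t_IF : S_IF := by
  intro f a ω κ hf ha hκ hκ2 hb z r hr
  obtain ⟨C, hC⟩ := hb z
  set c : ℝ := Real.pi / (2 * a) with hcdef
  have hc : 0 < c := by positivity
  have hca : c * a = Real.pi / 2 := by rw [hcdef]; field_simp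
  have hC0 : 0 ≤ C := by
    have h1 := hC 0 0 (by simpa using ha.le)
    have h2 : 0 ≤ ‖f (z + (0 : ℝ) + I * (0 : ℝ))‖ * Real.exp (-(ω * 0)) := by positivity
    have h3 := h2.trans h1
    simpa using h3
  set H : ℂ → ℂ := fun w => cexp (I * ω * (w - r)) * f (z + w) with hHdef
  set s : ℂ → ℂ := fun w => Complex.sin (c * (w - r)) with hsdef
  set g : ℝ → ℂ := fun v => KF a ω r v * Fa f a (uw a ω) (z + I * v) with hgdef
  have hH : Differentiable ℂ H := by
    have h1 : Differentiable ℂ fun w : ℂ => f (z + w) := hf.comp (by fun_prop)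
    exact (Differentiable.cexp (by fun_prop)).mul h1
  have hs : Differentiable ℂ s := by
    have h1 : Differentiable ℂ fun w : ℂ => (c : ℂ) * (w - r) := by fun_prop
    exact h1.csin
  have hHn : ∀ x v : ℝ, |x| ≤ a → ‖H (⟨x, v⟩)‖ ≤ C * Real.exp (κ * |v|) := by
    intro x v hx
    have h1 := hC x v hx
    have h2 : ‖cexp (I * ω * ((⟨x, v⟩ : ℂ) - r))‖ = Real.exp (-(ω * v)) := by
      rw [Complex.norm_exp]
      congr 1
      simp
    have h3 : z + (⟨x, v⟩ : ℂ) = z + x + I * v := by
      rw [Complex.mk_eq_add_mul_I]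
      ring
    simp only [hHdef]
    rw [norm_mul, h2, h3, mul_comm]
    exact h1
  -- the values on the vertical sides
  have hcosh : ∀ v : ℝ, Complex.cosh (Real.pi * (v + I * r) / (2 * a)) =
      Complex.cosh ((c * v : ℝ) + (c * r : ℝ) * I) := by
    intro v
    congr 1
    rw [hcdef]
    push_cast
    field_simp
  have hcc : 0 < Real.cos (c * r) := by
    apply Real.cos_pos_of_mem_Ioo
    have h1 : |c * r| < Real.pi / 2 := by
      rw [abs_mul, abs_of_pos hc, ← hca]
      exact mul_lt_mul_of_pos_left hr hc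
    exact abs_lt.mp h1
  have hcn : ∀ v : ℝ, Real.cos (c * r) * (Real.exp (c * |v|) / 2) ≤
      ‖Complex.cosh (Real.pi * (v + I * r) / (2 * a))‖ := by
    intro v
    rw [hcosh]
    refine le_trans ?_ (cosh_norm_ge _ _)
    have h1 := cosh_abs_ge (c * v)
    rw [abs_mul, abs_of_pos hc] at h1
    exact mul_le_mul_of_nonneg_left h1 hcc.le
  have hc0 : ∀ v : ℝ, Complex.cosh (Real.pi * (v + I * r) / (2 * a)) ≠ 0 := by
    intro v h
    have h1 := hcn v
    rw [h, norm_zero] at h1
    have : 0 < Real.cos (c * r) * (Real.exp (c * |v|) / 2) := by positivity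
    linarith
  have hR : ∀ v : ℝ, s ⟨a, v⟩ = Complex.cosh (Real.pi * (v + I * r) / (2 * a)) := by
    intro v
    simp only [hsdef]
    have h1 : (c : ℂ) * ((⟨a, v⟩ : ℂ) - r) = (Real.pi * (v + I * r) / (2 * a)) * I + Real.pi / 2 := by
      rw [Complex.mk_eq_add_mul_I]
      have h2 : (c : ℂ) * a = Real.pi / 2 := by exact_mod_cast hca
      have h3 : (Real.pi : ℂ) / (2 * a) = c := by rw [hcdef]; push_cast; rfl
      rw [mul_div_right_comm, h3]
      linear_combination h2 - (c : ℂ) * r * I_sq
    rw [h1, Complex.sin_add_pi_div_two, Complex.cos_mul_I]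
  have hL : ∀ v : ℝ, s ⟨-a, v⟩ = -Complex.cosh (Real.pi * (v + I * r) / (2 * a)) := by
    intro v
    simp only [hsdef]
    have h1 : (c : ℂ) * ((⟨-a, v⟩ : ℂ) - r) = (Real.pi * (v + I * r) / (2 * a)) * I - Real.pi / 2 := by
      rw [Complex.mk_eq_add_mul_I]
      have h2 : (c : ℂ) * a = Real.pi / 2 := by exact_mod_cast hca
      have h3 : (Real.pi : ℂ) / (2 * a) = c := by rw [hcdef]; push_cast; rfl
      rw [mul_div_right_comm, h3]
      push_cast
      linear_combination -h2 - (c : ℂ) * r * I_sq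
    rw [h1, Complex.sin_sub_pi_div_two, Complex.cos_mul_I]
  have hg : ∀ v : ℝ, g v = H ⟨a, v⟩ / s ⟨a, v⟩ - H ⟨-a, v⟩ / s ⟨-a, v⟩ := by
    intro v
    rw [hR, hL]
    simp only [hgdef, hHdef]
    unfold KF Fa uw
    have h1 := hc0 v
    have e1 : (⟨a, v⟩ : ℂ) = a + v * I := Complex.mk_eq_add_mul_I _ _
    have e2 : (⟨-a, v⟩ : ℂ) = -a + v * I := by rw [Complex.mk_eq_add_mul_I]; push_cast; ring
    rw [e1, e2]
    have e3 : cexp (I * ω * (a + v * I - r)) = cexp (I * ω * (I * v + a - r)) := by ring_nf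
    have e4 : cexp (I * ω * (-a + v * I - r)) =
        cexp (I * ω * (I * v + a - r)) * cexp (-(2 * I * ((ω * a : ℝ) : ℂ))) := by
      rw [← Complex.exp_add]
      congr 1
      push_cast
      ring
    rw [e3, e4]
    have e5 : z + (a + v * I) = z + I * v + a := by ring
    have e6 : z + (-a + v * I) = z + I * v - a := by ring
    rw [e5, e6]
    field_simp
    ring
  have hgc : Continuous g := by
    have h1 : Continuous fun v : ℝ => Fa f a (uw a ω) (z + I * v) := by
      unfold Fa
      have := hf.continuous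
      fun_prop
    have h2 : Continuous fun v : ℝ => KF a ω r v := by
      unfold KF
      refine Continuous.div (by fun_prop) ?_ hc0
      have h3 : Continuous fun v : ℝ => (Real.pi : ℂ) * (v + I * r) / (2 * a) := by fun_prop
      exact Complex.continuous_cosh.comp h3
    exact h2.mul h1
  have hgb : ∀ v : ℝ, ‖g v‖ ≤ 4 * C / Real.cos (c * r) * Real.exp (-(c - κ) * |v|) := by
    intro v
    rw [hg v, hR, hL]
    have h1 := hHn a v (by rw [abs_of_pos ha])
    have h2 := hHn (-a) v (by rw [abs_neg, abs_of_pos ha])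
    have h3 := hcn v
    have h4 : 0 < Real.cos (c * r) * (Real.exp (c * |v|) / 2) := by positivity
    have h5 : ‖H ⟨a, v⟩ / Complex.cosh (Real.pi * (v + I * r) / (2 * a))‖ ≤
        C * Real.exp (κ * |v|) / (Real.cos (c * r) * (Real.exp (c * |v|) / 2)) := by
      rw [norm_div]
      exact div_le_div₀ (by positivity) h1 h4 h3
    have h6 : ‖H ⟨-a, v⟩ / -Complex.cosh (Real.pi * (v + I * r) / (2 * a))‖ ≤
        C * Real.exp (κ * |v|) / (Real.cos (c * r) * (Real.exp (c * |v|) / 2)) := by
      rw [norm_div, norm_neg]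
      exact div_le_div₀ (by positivity) h2 h4 h3
    refine (norm_sub_le _ _).trans ((add_le_add h5 h6).trans (le_of_eq ?_))
    have h7 : Real.exp (-(c - κ) * |v|) = Real.exp (κ * |v|) / Real.exp (c * |v|) := by
      rw [← Real.exp_sub]
      congr 1
      ring
    rw [h7]
    have h8 : Real.exp (c * |v|) ≠ 0 := (Real.exp_pos _).ne'
    field_simp
    ring
  have hgi : Integrable g := by
    refine Integrable.mono' ((int_exp_abs (δ := c - κ) (by linarith)).const_mul
      (4 * C / Real.cos (c * r))) hgc.aestronglyMeasurable (Eventually.of_forall hgb)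
  refine ⟨hgi, ?_⟩
  -- the residue theorem
  have hres : ∀ V : ℝ, 0 < V → rectI (fun w => H w / s w) (-a) a (-V) V = 4 * a * I * f (z + r) := by
    intro V hV
    have hr1 := abs_lt.mp hr
    have h1 := rect_res s H (-a) a (-V) V (by linarith) (by linarith) {(r : ℂ)}
      (fun w hw => by
        rw [Finset.mem_singleton] at hw
        rw [hw, Complex.mem_reProdIm]
        simp only [Complex.ofReal_re, Complex.ofReal_im, mem_Ioo]
        exact ⟨⟨hr1.1, hr1.2⟩, by linarith, hV⟩)
      (fun w _ => (hs.analyticAt w)) (fun w _ => (hH.analyticAt w))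
      (fun w hw => by
        rw [Finset.mem_singleton]
        rw [Complex.mem_reProdIm] at hw
        constructor
        · intro h0
          simp only [hsdef] at h0
          rw [Complex.sin_eq_zero_iff] at h0
          obtain ⟨k, hk⟩ := h0
          have h2 : w = r + 2 * a * k := by
            have h3 : (c : ℂ) ≠ 0 := by exact_mod_cast hc.ne'
            have h4 : (c : ℂ) * (2 * a) = Real.pi := by
              have : c * (2 * a) = Real.pi := by linarith
              exact_mod_cast this
            apply mul_left_cancel₀ h3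
            linear_combination hk - (k : ℂ) * h4
          have h5 : w.re = r + 2 * a * k := by
            rw [h2]
            simp
          have h6 := hw.1
          rw [h5] at h6
          have h7 : k = 0 := by
            by_contra hk0
            rcases lt_or_gt_of_ne hk0 with hk1 | hk1
            · have h8 : (k : ℝ) ≤ -1 := by exact_mod_cast (by omega : k ≤ -1)
              nlinarith [h6.1, hr1.2]
            · have h8 : (1 : ℝ) ≤ k := by exact_mod_cast (by omega : 1 ≤ k)
              nlinarith [h6.2, hr1.1]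
          rw [h2, h7]
          simp
        · intro h0
          simp only [hsdef]
          rw [h0, sub_self, mul_zero, Complex.sin_zero])
      (fun w hw => by
        rw [Finset.mem_singleton] at hw
        rw [hw]
        have h2 : HasDerivAt s (Complex.cos (c * ((r : ℂ) - r)) * (c * 1)) r := by
          have h3 : HasDerivAt (fun w : ℂ => (c : ℂ) * (w - r)) (c * 1) (r : ℂ) :=
            ((hasDerivAt_id (r : ℂ)).sub_const (r : ℂ)).const_mul (c : ℂ)
          exact h3.csin
        rw [h2.deriv, sub_self, mul_zero, Complex.cos_zero, one_mul, mul_one]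
        exact_mod_cast hc.ne')
    rw [h1, Finset.sum_singleton]
    have h2 : HasDerivAt s (Complex.cos (c * ((r : ℂ) - r)) * (c * 1)) r := by
      have h3 : HasDerivAt (fun w : ℂ => (c : ℂ) * (w - r)) (c * 1) (r : ℂ) :=
        ((hasDerivAt_id (r : ℂ)).sub_const (r : ℂ)).const_mul (c : ℂ)
      exact h3.csin
    rw [h2.deriv, sub_self, mul_zero, Complex.cos_zero, one_mul, mul_one]
    simp only [hHdef, sub_self, mul_zero, Complex.exp_zero, one_mul]
    rw [hcdef]
    have h3 : (a : ℂ) ≠ 0 := by exact_mod_cast ha.ne'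
    have h4 : (Real.pi : ℂ) ≠ 0 := by exact_mod_cast Real.pi_ne_zero
    push_cast
    field_simp
    ring
  -- horizontal sides
  have hhor : ∀ V : ℝ, 0 ≤ V → 2 ≤ Real.exp (c * V) → ∀ x : ℝ, |x| ≤ a → ∀ v : ℝ, |v| = V →
      ‖H ⟨x, v⟩ / s ⟨x, v⟩‖ ≤ 4 * C * Real.exp (-(c - κ) * V) := by
    intro V hV hV2 x hx v hv
    have h1 := hHn x v hx
    have h2 : Real.exp (c * V) / 4 ≤ ‖s ⟨x, v⟩‖ := by
      simp only [hsdef]
      have h3 : (c : ℂ) * ((⟨x, v⟩ : ℂ) - r) = ((c * (x - r) : ℝ) : ℂ) + ((c * v : ℝ) : ℂ) * I := by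
        rw [Complex.mk_eq_add_mul_I]
        push_cast
        ring
      rw [h3]
      refine le_trans ?_ (sin_norm_ge _ _)
      rw [Real.abs_sinh, abs_mul, abs_of_pos hc, hv, Real.sinh_eq]
      have h4 : Real.exp (-(c * V)) ≤ 1 := Real.exp_le_one_iff.mpr (by nlinarith)
      linarith
    have h5 : 0 < Real.exp (c * V) / 4 := by positivity
    rw [norm_div]
    rw [hv] at h1
    refine (div_le_div₀ (by positivity) h1 h5 h2).trans (le_of_eq ?_)
    have h7 : Real.exp (-(c - κ) * V) = Real.exp (κ * V) / Real.exp (c * V) := by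
      rw [← Real.exp_sub]
      congr 1
      ring
    rw [h7]
    have h8 : Real.exp (c * V) ≠ 0 := (Real.exp_pos _).ne'
    field_simp
  have hcontV : ∀ x : ℝ, x = a ∨ x = -a → Continuous fun v : ℝ => H ⟨x, v⟩ / s ⟨x, v⟩ := by
    intro x hx
    have h1 : Continuous fun v : ℝ => (⟨x, v⟩ : ℂ) := by
      have : (fun v : ℝ => (⟨x, v⟩ : ℂ)) = fun v : ℝ => (x : ℂ) + v * I := by
        funext v
        rw [Complex.mk_eq_add_mul_I]
      rw [this]
      fun_prop
    refine Continuous.div (hH.continuous.comp h1) (hs.continuous.comp h1) (fun v => ?_)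
    rcases hx with rfl | rfl
    · rw [hR]; exact hc0 v
    · rw [hL]; exact neg_ne_zero.mpr (hc0 v)
  have hmain : ∀ V : ℝ, 0 < V → 2 ≤ Real.exp (c * V) →
      ‖I * (∫ v in (-V)..V, g v) - 4 * a * I * f (z + r)‖ ≤ 16 * C * a * Real.exp (-(c - κ) * V) := by
    intro V hV hV2
    have h1 := hres V hV
    unfold rectI at h1
    have h2 : (∫ v in (-V)..V, g v) = (∫ y in (-V)..V, H ⟨a, y⟩ / s ⟨a, y⟩) -
        (∫ y in (-V)..V, H ⟨-a, y⟩ / s ⟨-a, y⟩) := by
      rw [← intervalIntegral.integral_sub ((hcontV a (Or.inl rfl)).intervalIntegrable _ _)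
        ((hcontV (-a) (Or.inr rfl)).intervalIntegrable _ _)]
      exact intervalIntegral.integral_congr (fun v _ => hg v)
    have h3 : I * (∫ v in (-V)..V, g v) - 4 * a * I * f (z + r) =
        (∫ x in (-a)..a, H ⟨x, V⟩ / s ⟨x, V⟩) - (∫ x in (-a)..a, H ⟨x, -V⟩ / s ⟨x, -V⟩) := by
      rw [h2, ← h1]
      ring
    rw [h3]
    have h4 : ∀ v : ℝ, |v| = V → ‖∫ x in (-a)..a, H ⟨x, v⟩ / s ⟨x, v⟩‖ ≤
        4 * C * Real.exp (-(c - κ) * V) * |a - -a| := by
      intro v hv
      refine intervalIntegral.norm_integral_le_of_norm_le_const (fun x hx => ?_)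
      rw [Set.uIoc_of_le (by linarith)] at hx
      exact hhor V hV.le hV2 x (abs_le.mpr ⟨hx.1.le, hx.2⟩) v hv
    have h5 := h4 V (abs_of_pos hV)
    have h6 := h4 (-V) (by rw [abs_neg, abs_of_pos hV])
    have h7 : |a - -a| = 2 * a := by
      rw [sub_neg_eq_add, abs_of_pos (by linarith)]
      ring
    rw [h7] at h5 h6
    refine (norm_sub_le _ _).trans ((add_le_add h5 h6).trans (le_of_eq ?_))
    ring
  have hlim1 : Tendsto (fun V : ℝ => I * (∫ v in (-V)..V, g v) - 4 * a * I * f (z + r)) atTop (𝓝 0) := by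
    have h1 : Tendsto (fun V : ℝ => 16 * C * a * Real.exp (-(c - κ) * V)) atTop (𝓝 0) := by
      have h2 : Tendsto (fun V : ℝ => -(c - κ) * V) atTop atBot :=
        Tendsto.const_mul_atTop_of_neg (by linarith) tendsto_id
      have h3 := Real.tendsto_exp_atBot.comp h2
      have h4 := h3.const_mul (16 * C * a)
      rw [mul_zero] at h4
      exact h4
    refine squeeze_zero_norm' ?_ h1
    have h5 : ∀ᶠ V : ℝ in atTop, 2 ≤ Real.exp (c * V) := by
      have h6 : Tendsto (fun V : ℝ => c * V) atTop atTop := tendsto_id.const_mul_atTop hc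
      exact (Real.tendsto_exp_atTop.comp h6).eventually_ge_atTop 2
    filter_upwards [h5, eventually_gt_atTop 0] with V hV1 hV2
    exact hmain V hV2 hV1
  have hlim2 : Tendsto (fun V : ℝ => ∫ v in (-V)..V, g v) atTop (𝓝 (∫ v, g v)) :=
    intervalIntegral_tendsto_integral hgi tendsto_neg_atTop_atBot tendsto_id
  have hlim3 := (hlim2.const_mul I).sub_const (4 * a * I * f (z + r))
  have h1 := tendsto_nhds_unique hlim1 hlim3
  have h2 : I * (∫ v, g v) = I * (4 * a * f (z + r)) := by
    linear_combination -h1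
  have h3 := mul_left_cancel₀ Complex.I_ne_zero h2
  have h4 : (a : ℂ) ≠ 0 := by exact_mod_cast ha.ne'
  rw [h3]
  push_cast
  field_simp

end Pool.Agent.Q182.DT
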